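import Pool.Agent.Helper737.FoldLift.A
import Pool.Agent.Helper886.KM.N
import Pool.Agent.Helper531.PP.H

open Set

namespace Pool.Agent.Helper737.FoldLift

theorem km_of_hi {X : Type*} [TopologicalSpace X] [CompactSpace X] [T2Space X]
    (hHI : ∀ C D : Set X, IsClosed C → IsClosed D → IsPreconnected C → IsPreconnected D →
      (C ∩ D).Nonempty → C ⊆ D ∨ D ⊆ C) : KM X := by
  intro A B U V hA hB hAB hU hV hAU hBV
  exact Pool.Agent.Helper886.KM.km hHI hA hB hAB hU hV hAU hBV

theorem goodA {X : Type} [MetricSpace X] [CompactSpace X] [PreconnectedSpace X]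
    (hHI : ∀ C D : Set X, IsClosed C → IsClosed D → IsPreconnected C → IsPreconnected D →
      (C ∩ D).Nonempty → C ⊆ D ∨ D ⊆ C) (x : X) : Pool.Agent.Helper531.PP.GoodA X x :=
  liftA (km_of_hi hHI) x

end Pool.Agent.Helper737.FoldLift
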