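import Mathlib

namespace Pool.Agent.Helper737.FoldLift

open Set

/-- Krasinkiewicz–Minc decomposition property -/
def KM (X : Type*) [TopologicalSpace X] : Prop :=
  ∀ A B U V : Set X, IsClosed A → IsClosed B → Disjoint A B → IsOpen U → IsOpen V → A ⊆ U → B ⊆ V →
    ∃ X0 X1 X2 : Set X, IsClosed X0 ∧ IsClosed X1 ∧ IsClosed X2 ∧ X0 ∪ X1 ∪ X2 = univ ∧
      A ⊆ X0 ∧ B ⊆ X2 ∧ Disjoint X0 X2 ∧ X0 ∩ X1 ⊆ V ∧ X1 ∩ X2 ⊆ U

/-- every `φ` can be lifted approximately through `k : [0,L] → [0,N]` -/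
def Lift {X : Type*} [TopologicalSpace X] (x : X) (L N : ℝ) (k : ℝ → ℝ) : Prop :=
  ∀ φ : X → ℝ, Continuous φ → range φ = Icc 0 N → φ x = 0 → ∀ ε > 0,
    ∃ ψ : X → ℝ, Continuous ψ ∧ range ψ = Icc 0 L ∧ ψ x = 0 ∧ ∀ p, |k (ψ p) - φ p| < ε

variable {X : Type*} [TopologicalSpace X]

theorem Lift.congr {x : X} {L N : ℝ} {k k' : ℝ → ℝ} (h : Lift x L N k)
    (hk : ∀ t ∈ Icc (0:ℝ) L, k t = k' t) : Lift x L N k' := by
  intro φ hφ hr hx ε hε
  obtain ⟨ψ, h1, h2, h3, h4⟩ := h φ hφ hr hx ε hε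
  refine ⟨ψ, h1, h2, h3, fun p => ?_⟩
  rw [← hk (ψ p) (by rw [← h2]; exact mem_range_self p)]
  exact h4 p

theorem Lift.comp {x : X} {L M N : ℝ} {k f : ℝ → ℝ} (hk : Lift x M N k) (hf : Lift x L M f)
    (hc : Continuous k) : Lift x L N (fun t => k (f t)) := by
  intro φ hφ hr hx ε hε
  obtain ⟨ψ', h1, h2, h3, h4⟩ := hk φ hφ hr hx (ε/2) (by positivity)
  have huc : UniformContinuousOn k (Icc (-1) (M+1)) :=
    isCompact_Icc.uniformContinuousOn_of_continuous hc.continuousOn
  rw [Metric.uniformContinuousOn_iff] at huc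
  obtain ⟨δ, hδ, hu⟩ := huc (ε/2) (by positivity)
  obtain ⟨ψ, g1, g2, g3, g4⟩ := hf ψ' h1 h2 h3 (min δ 1) (by positivity)
  refine ⟨ψ, g1, g2, g3, fun p => ?_⟩
  have hM : ψ' p ∈ Icc 0 M := by rw [← h2]; exact mem_range_self p
  have a1 := g4 p
  have a2 := h4 p
  have a3 : |f (ψ p) - ψ' p| < δ := lt_of_lt_of_le a1 (min_le_left _ _)
  have a4 : |f (ψ p) - ψ' p| < 1 := lt_of_lt_of_le a1 (min_le_right _ _)
  rw [abs_lt] at a4
  have a5 : |k (f (ψ p)) - k (ψ' p)| < ε/2 := by
    have := hu (f (ψ p)) ⟨by linarith [hM.1], by linarith [hM.2]⟩ (ψ' p)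
      ⟨by linarith [hM.1], by linarith [hM.2]⟩ (by rw [Real.dist_eq]; exact a3)
    rwa [Real.dist_eq] at this
  calc |k (f (ψ p)) - φ p| = |(k (f (ψ p)) - k (ψ' p)) + (k (ψ' p) - φ p)| := by ring_nf
    _ ≤ |k (f (ψ p)) - k (ψ' p)| + |k (ψ' p) - φ p| := abs_add_le _ _
    _ < ε := by linarith

noncomputable def PL (w : ℕ → ℤ) (m : ℕ) (t : ℝ) : ℝ :=
  (w 0 : ℝ) + ∑ i ∈ Finset.range m, ((w (i+1) : ℝ) - w i) * max 0 (min 1 (t - i))

theorem PL_continuous (w : ℕ → ℤ) (m : ℕ) : Continuous (PL w m) := by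
  unfold PL
  fun_prop

theorem PL_succ (w : ℕ → ℤ) (m : ℕ) (t : ℝ) :
    PL w (m+1) t = PL w m t + ((w (m+1) : ℝ) - w m) * max 0 (min 1 (t - m)) := by
  unfold PL
  rw [Finset.sum_range_succ]
  ring

theorem PL_ge (w : ℕ → ℤ) (m : ℕ) (t : ℝ) (ht : m ≤ t) : PL w m t = w m := by
  induction m with
  | zero => simp [PL]
  | succ n ih =>
    push_cast at ht
    rw [PL_succ, ih (by linarith), min_eq_left (by linarith), max_eq_right (by norm_num)]
    ring

theorem PL_eval (w : ℕ → ℤ) (m j : ℕ) (hj : j < m) (s : ℝ) (h0 : 0 ≤ s) (h1 : s ≤ 1) :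
    PL w m (j + s) = (1 - s) * w j + s * w (j+1) := by
  induction m with
  | zero => omega
  | succ n ih =>
    rw [PL_succ]
    rcases Nat.lt_succ_iff_lt_or_eq.mp hj with h | h
    · rw [ih h]
      have : (j:ℝ) + 1 ≤ n := by exact_mod_cast h
      rw [min_eq_right (by linarith), max_eq_left (by linarith)]
      ring
    · subst h
      rw [PL_ge _ _ _ (by linarith)]
      rw [show (j:ℝ) + s - j = s by ring, min_eq_right h1, max_eq_right h0]
      ring

theorem exists_floor (m : ℕ) (hm : 0 < m) (t : ℝ) (h0 : 0 ≤ t) (h1 : t ≤ m) :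
    ∃ j < m, ∃ s : ℝ, 0 ≤ s ∧ s ≤ 1 ∧ t = j + s := by
  rcases eq_or_lt_of_le h1 with h | h
  · refine ⟨m-1, by omega, 1, by norm_num, le_refl _, ?_⟩
    rw [h, Nat.cast_sub (by omega)]
    simp
  · refine ⟨⌊t⌋₊, ?_, t - ⌊t⌋₊, ?_, ?_, by ring⟩
    · exact (Nat.floor_lt h0).mpr h
    · linarith [Nat.floor_le h0]
    · linarith [Nat.lt_floor_add_one t]



theorem run_straight (w : ℕ → ℤ) (j n : ℕ)
    (hstep : ∀ i, j ≤ i → i < j + n → (w (i+1) = w i + 1 ∨ w (i+1) = w i - 1))
    (hno : ∀ i, j < i → i < j + n → w (i+1) ≠ w (i-1)) :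
    ∀ s ≤ n, w (j+s) = w j + s * (w (j+1) - w j) := by
  intro s
  induction s using Nat.strong_induction_on with
  | _ s ih =>
    intro hs
    match s, ih, hs with
    | 0, _, _ => simp
    | 1, _, _ => simp
    | s+2, ih, hs =>
      have h1 := ih (s+1) (by omega) (by omega)
      have h0 := ih s (by omega) (by omega)
      have h2 := hno (j+s+1) (by omega) (by omega)
      have h3 := hstep (j+s+1) (by omega) (by omega)
      have h4 := hstep j (by omega) (by omega)
      have e1 : j + s + 1 - 1 = j + s := by omega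
      rw [e1] at h2
      have e2 : j + (s+2) = j+s+1+1 := by ring
      have e3 : j + (s+1) = j+s+1 := by ring
      rw [e2]
      rw [e3] at h1
      push_cast at h1 ⊢
      rcases h3 with h3 | h3 <;> rcases h4 with h4 | h4 <;> rw [h4] at h0 h1 ⊢ <;> rw [h3] at h2 ⊢ <;>
        first
          | (rw [h1]; ring1)
          | (exfalso; apply h2; rw [h1, h0]; ring1)

/-- the combinatorial dichotomy for walks. -/
theorem walk_cases (w : ℕ → ℤ) (m : ℕ) (N : ℕ) (h0 : w 0 = 0) (hpos : ∀ i ≤ m, 0 ≤ w i ∧ w i ≤ N)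
    (hstep : ∀ i < m, w (i+1) = w i + 1 ∨ w (i+1) = w i - 1) (hN : ∃ i ≤ m, w i = N) :
    (m = N ∧ ∀ i ≤ m, w i = i) ∨
    (∃ b l : ℕ, 0 < l ∧ l ≤ b ∧ b + l + l ≤ m ∧ (∀ s ≤ l, w (b+s) = w (b-s)) ∧
      (∀ s ≤ l, w (b+l+s) = w (b+l-s))) ∨
    (∃ b l : ℕ, 0 < l ∧ l ≤ b ∧ b + l = m ∧ (∀ s ≤ l, w (b+s) = w (b-s))) := by
  classical
  let T : ℕ → Prop := fun i => 0 < i ∧ i < m ∧ w (i+1) = w (i-1)
  let P : ℕ → Prop := fun l => 0 < l ∧ ∃ i, T i ∧ (i + l = m ∨ T (i+l))
  by_cases hT : ∃ i, T i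
  · right
    obtain ⟨i0, hi0⟩ := hT
    have hP : ∃ l, P l := ⟨m - i0, by have := hi0.2.1; omega, i0, hi0, Or.inl (by have := hi0.2.1; omega)⟩
    obtain ⟨hl, i, hi, hil⟩ := Nat.find_spec hP
    have hmin : ∀ l' < Nat.find hP, ¬ P l' := fun l' h => Nat.find_min hP h
    set l := Nat.find hP with hldef
    have hilm : i + l ≤ m := by
      rcases hil with h | h
      · exact h.le
      · exact h.2.1.le
    obtain ⟨σ, hσ⟩ : ∃ σ, σ = w (i+1) - w i := ⟨_, rfl⟩
    have hA : ∀ s ≤ l, w (i+s) = w i + s * σ := by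
      rw [hσ]
      apply run_straight w i l
      · intro u h1 h2
        exact hstep u (by omega)
      · intro u h1 h2 h3
        refine hmin (u - i) (by omega) ⟨by omega, i, hi, Or.inr ?_⟩
        have : i + (u - i) = u := by omega
        rw [this]
        exact ⟨by omega, by omega, h3⟩
    have hσ' : σ = 1 ∨ σ = -1 := by
      rcases hstep i hi.2.1 with h | h
      · left; omega
      · right; omega
    have hB : ∀ s ≤ l, s ≤ i → w (i - s) = w i + s * σ := by
      intro s hs hsi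
      rcases Nat.eq_zero_or_pos s with h | hs0
      · subst h; simp
      have hr := run_straight w (i-s) s (by
        intro u h1 h2
        exact hstep u (by have := hi.2.1; omega)) (by
        intro u h1 h2 h3
        refine hmin (i - u) (by omega) ⟨by omega, u, ⟨by omega, by have := hi.2.1; omega, h3⟩, Or.inr ?_⟩
        have : u + (i - u) = i := by omega
        rw [this]; exact hi)
      have r1 := hr s le_rfl
      have r2 := hr (s-1) (by omega)
      have e1 : i - s + s = i := by omega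
      have e2 : i - s + (s-1) = i - 1 := by omega
      rw [e1] at r1
      rw [e2] at r2
      have h3 := hi.2.2
      rw [h3] at hσ
      have e3 : ((s-1 : ℕ) : ℤ) = (s:ℤ) - 1 := by omega
      rw [e3] at r2
      obtain ⟨τ, hτ⟩ : ∃ τ, τ = w (i - s + 1) - w (i-s) := ⟨_, rfl⟩
      rw [← hτ] at r1 r2
      have : σ = -τ := by rw [hσ, r2, r1]; ring
      rw [this, r1]; ring
    have hli : l ≤ i := by
      by_contra hcon
      push Not at hcon
      have b1 := hB i hcon.le le_rfl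
      rw [Nat.sub_self, h0] at b1
      have b2 := hA l le_rfl
      have b3 := (hpos (i+l) hilm).1
      have b4 := (hpos i (by omega)).1
      have b5 := hi.1
      rcases hσ' with h | h
      · rw [h] at b1; omega
      · rw [h] at b1 b2; omega
    rcases hil with hil | hil
    · right
      refine ⟨i, l, hl, hli, hil, fun s hs => ?_⟩
      rw [hA s hs, hB s hs (by omega)]
    · left
      have hlm : i + l + l ≤ m := by
        by_contra hcon
        push Not at hcon
        refine hmin (m - (i+l)) (by omega) ⟨by have := hil.2.1; omega, i+l, hil, Or.inl (by have := hil.2.1; omega)⟩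
      refine ⟨i, l, hl, hli, hlm, fun s hs => ?_, fun s hs => ?_⟩
      · rw [hA s hs, hB s hs (by omega)]
      · have hr := run_straight w (i+l) l (by
          intro u h1 h2
          exact hstep u (by omega)) (by
          intro u h1 h2 h3
          refine hmin (u - (i+l)) (by omega) ⟨by omega, i+l, hil, Or.inr ?_⟩
          have : i + l + (u - (i+l)) = u := by omega
          rw [this]
          exact ⟨by omega, by omega, h3⟩) s hs
        have e1 : i + l - s = i + (l - s) := by omega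
        have e2 : i + l - 1 = i + (l - 1) := by omega
        rw [hr, e1, hil.2.2, e2, hA (l-s) (by omega), hA (l-1) (by omega), hA l le_rfl]
        push_cast [Nat.cast_sub hs, Nat.cast_sub (show 1 ≤ l from hl)]
        ring
  · left
    push Not at hT
    have hT' : ∀ i, 0 < i → i < m → w (i+1) ≠ w (i-1) := by
      intro i h1 h2 h3
      exact hT i ⟨h1, h2, h3⟩
    have hw : ∀ i ≤ m, w i = i := by
      intro i him
      rcases Nat.eq_zero_or_pos m with hm | hm
      · have : i = 0 := by omega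
        subst this; simpa using h0
      have hr := run_straight w 0 m (by intro u _ h; exact hstep u (by omega))
        (by intro u h1 h2; exact hT' u h1 (by omega)) i him
      have h1 : w (0+1) = 1 := by
        have a := hstep 0 hm
        have b := (hpos 1 hm).1
        rw [h0] at a
        simp only [Nat.zero_add] at a ⊢
        rcases a with a | a
        · exact a
        · omega
      rw [h1, h0] at hr
      simpa using hr
    refine ⟨?_, hw⟩
    obtain ⟨i, him, hi⟩ := hN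
    have a := hw i him
    have b := hw m le_rfl
    have c := (hpos m le_rfl).2
    omega


/-- the function used to clamp near `a` and `b` -/
theorem clamp_exists (a b : ℝ) (hab : a < b) (ε : ℝ) (hε : 0 < ε) :
    ∃ (r : ℝ → ℝ) (η : ℝ), Continuous r ∧ 0 < η ∧ 2 * η < b - a ∧ η < ε ∧ (∀ s, |r s - s| ≤ η) ∧
      (∀ s ≤ a, r s = s) ∧ (∀ s, b ≤ s → r s = s) ∧ (∀ s, a ≤ s → s ≤ a + η → r s = a) ∧
      (∀ s, s ≤ b → b - η ≤ s → r s = b) ∧ (∀ s, s ≤ b → r s ≤ b) ∧ (∀ s, a ≤ s → a ≤ r s) := by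
  obtain ⟨η, hη0, hη1, hη2⟩ : ∃ η : ℝ, 0 < η ∧ η < ε ∧ 4 * η ≤ b - a := by
    refine ⟨min (ε / 2) ((b - a) / 4), lt_min (by linarith) (by linarith), ?_, ?_⟩
    · exact (min_le_left _ _).trans_lt (by linarith)
    · have := min_le_right (ε / 2) ((b - a) / 4)
      linarith
  have hD : 0 < b - a - 2 * η := by linarith
  obtain ⟨κ, hκ, hκ1⟩ : ∃ κ : ℝ, κ * (b - a - 2 * η) = b - a ∧ 1 < κ := by
    refine ⟨(b - a) / (b - a - 2 * η), div_mul_cancel₀ _ hD.ne', ?_⟩
    rw [one_lt_div hD]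
    linarith
  let g : ℝ → ℝ := fun s => a + (s - a - η) * κ
  let r : ℝ → ℝ := fun s => max (min s a) (min (max s b) (g s))
  have hr : ∀ s, r s = max (min s a) (min (max s b) (g s)) := fun _ => rfl
  have hg : ∀ s, g s = a + (s - a - η) * κ := fun _ => rfl
  have hlow : ∀ s ≤ a, r s = s := by
    intro s hs
    have h1 : g s ≤ s := by
      rw [hg]
      nlinarith
    rw [hr, min_eq_left hs]
    exact max_eq_left ((min_le_right _ _).trans h1)
  have hhigh : ∀ s, b ≤ s → r s = s := by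
    intro s hs
    have h1 : s ≤ g s := by
      rw [hg]
      nlinarith
    rw [hr, max_eq_left hs, min_eq_left h1]
    exact max_eq_right ((min_le_right _ _).trans (by linarith))
  have hmid : ∀ s, a ≤ s → s ≤ b → r s = max a (min b (g s)) := by
    intro s h1 h2
    rw [hr, min_eq_right h1, max_eq_right h2]
  have hA : ∀ s, a ≤ s → s ≤ a + η → r s = a := by
    intro s h1 h2
    rw [hmid s h1 (by linarith)]
    apply max_eq_left
    refine (min_le_right _ _).trans ?_
    rw [hg]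
    nlinarith
  have hB : ∀ s, s ≤ b → b - η ≤ s → r s = b := by
    intro s h1 h2
    rw [hmid s (by linarith) h1]
    have h3 : b ≤ g s := by
      rw [hg]
      nlinarith
    rw [min_eq_left h3]
    exact max_eq_right hab.le
  refine ⟨r, η, ?_, hη0, by linarith, hη1, ?_, hlow, hhigh, hA, hB, ?_, ?_⟩
  · fun_prop
  · intro s
    rcases le_total s a with h1 | h1
    · rw [hlow s h1, sub_self, abs_zero]; exact hη0.le
    rcases le_total b s with h2 | h2
    · rw [hhigh s h2, sub_self, abs_zero]; exact hη0.le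
    rcases le_total s (a + η) with h3 | h3
    · rw [hA s h1 h3, abs_le]; constructor <;> linarith
    rcases le_total (b - η) s with h4 | h4
    · rw [hB s h2 h4, abs_le]; constructor <;> linarith
    have h5 : a ≤ g s := by rw [hg]; nlinarith
    have h6 : g s ≤ b := by rw [hg]; nlinarith
    rw [hmid s h1 h2, min_eq_right h6, max_eq_right h5, abs_le, hg]
    constructor <;> nlinarith
  · intro s hs
    rcases le_total s a with h1 | h1
    · rw [hlow s h1]; exact hs
    · rw [hmid s h1 hs]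
      exact max_le hab.le (min_le_left _ _)
  · intro s hs
    rcases le_total b s with h1 | h1
    · rw [hhigh s h1]; exact hs
    · rw [hmid s hs h1]
      exact le_max_left _ _

theorem glue3{X0 X1 X2 : Set X} (h0 : IsClosed X0) (h1 : IsClosed X1) (h2 : IsClosed X2)
    (hu : X0 ∪ X1 ∪ X2 = univ) (hd : Disjoint X0 X2) (f0 f1 f2 : X → ℝ) (c0 : Continuous f0)
    (c1 : Continuous f1) (c2 : Continuous f2) (e01 : ∀ p ∈ X0 ∩ X1, f0 p = f1 p)
    (e12 : ∀ p ∈ X1 ∩ X2, f1 p = f2 p) :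
    ∃ ψ : X → ℝ, Continuous ψ ∧ (∀ p ∈ X0, ψ p = f0 p) ∧ (∀ p ∈ X1, ψ p = f1 p) ∧
      (∀ p ∈ X2, ψ p = f2 p) := by
  classical
  have k0 : ∀ p ∈ X0, (if p ∈ X0 then f0 p else if p ∈ X1 then f1 p else f2 p) = f0 p := by
    intro p hp; simp [hp]
  have k1 : ∀ p ∈ X1, (if p ∈ X0 then f0 p else if p ∈ X1 then f1 p else f2 p) = f1 p := by
    intro p hp
    by_cases h : p ∈ X0
    · simp only [h, if_true]; exact e01 p ⟨h, hp⟩
    · simp [h, hp]
  have k2 : ∀ p ∈ X2, (if p ∈ X0 then f0 p else if p ∈ X1 then f1 p else f2 p) = f2 p := by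
    intro p hp
    have h : p ∉ X0 := fun h => disjoint_left.mp hd h hp
    by_cases h' : p ∈ X1
    · simp only [h, if_false, h', if_true]; exact e12 p ⟨h', hp⟩
    · simp [h, h']
  refine ⟨fun p => if p ∈ X0 then f0 p else if p ∈ X1 then f1 p else f2 p, ?_, k0, k1, k2⟩
  rw [← continuousOn_univ, ← hu]
  refine ContinuousOn.union_of_isClosed (ContinuousOn.union_of_isClosed ?_ ?_ h0 h1) ?_ (h0.union h1) h2
  · exact c0.continuousOn.congr k0
  · exact c1.continuousOn.congr k1
  · exact c2.continuousOn.congr k2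

theorem range_eq_Icc [PreconnectedSpace X] (ψ : X → ℝ) (hc : Continuous ψ) (x y : X) (L : ℝ)
    (h0 : ψ x = 0) (h1 : ψ y = L) (hb : ∀ p, 0 ≤ ψ p ∧ ψ p ≤ L) : range ψ = Icc 0 L := by
  apply Subset.antisymm
  · rintro _ ⟨p, rfl⟩
    exact hb p
  · rw [← h0, ← h1, ← image_univ]
    exact isPreconnected_univ.intermediate_value (mem_univ _) (mem_univ _) hc.continuousOn

theorem lift_foldN [PreconnectedSpace X] (hKM : KM X) (x : X) (a b N : ℝ) (ha : 0 ≤ a) (hab : a < b)
    (hbN : b ≤ N) :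
    Lift x (N + 2*(b-a)) N (fun t => min t (max (2*b - t) (t - 2*(b-a)))) := by
  intro φ hφ hr hx ε hε
  obtain ⟨r, η, hrc, hη, hη2, hηε, hr1, hr2, hr3, hr4, hr5, hr6, hr7⟩ := clamp_exists a b hab ε hε
  have hb : ∀ p, φ p ∈ Icc 0 N := fun p => by rw [← hr]; exact mem_range_self p
  obtain ⟨X0, X1, X2, h0, h1, h2, hu, hA, hB, hd, h01, h12⟩ := hKM {p | φ p ≤ a} {p | b ≤ φ p}
    {p | φ p < a + η} {p | b - η < φ p} (isClosed_le hφ continuous_const)
    (isClosed_le continuous_const hφ) (by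
      rw [disjoint_left]; intro p h1 h2; simp only [mem_ofPred_eq] at h1 h2; linarith)
    (isOpen_lt hφ continuous_const) (isOpen_lt continuous_const hφ)
    (by intro p h1; simp only [mem_ofPred_eq] at h1 ⊢; linarith)
    (by intro p h1; simp only [mem_ofPred_eq] at h1 ⊢; linarith)
  have hX0 : ∀ p ∈ X0, φ p < b := by
    intro p hp; by_contra hc; push Not at hc
    exact disjoint_left.mp hd hp (hB hc)
  have hX2 : ∀ p ∈ X2, a < φ p := by
    intro p hp; by_contra hc; push Not at hc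
    exact disjoint_left.mp hd (hA hc) hp
  have hX1 : ∀ p ∈ X1, a < φ p ∧ φ p < b := by
    intro p hp
    constructor
    · by_contra hc; push Not at hc
      have := h01 ⟨hA hc, hp⟩
      simp only [mem_ofPred_eq] at this
      linarith
    · by_contra hc; push Not at hc
      have := h12 ⟨hp, hB hc⟩
      simp only [mem_ofPred_eq] at this
      linarith
  obtain ⟨ψ, hψc, g0, g1, g2⟩ := glue3 h0 h1 h2 hu hd (fun p => r (φ p)) (fun p => 2*b - r (φ p))
    (fun p => r (φ p) + 2*(b-a)) (hrc.comp hφ) (continuous_const.sub (hrc.comp hφ))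
    ((hrc.comp hφ).add continuous_const) (by
      intro p hp
      have e1 := h01 hp
      simp only [mem_ofPred_eq] at e1
      have : r (φ p) = b := hr5 _ (hX0 p hp.1).le e1.le
      simp only [this]; ring) (by
      intro p hp
      have e1 := h12 hp
      simp only [mem_ofPred_eq] at e1
      have : r (φ p) = a := hr4 _ (hX2 p hp.2).le e1.le
      simp only [this]; ring)
  have hcov : ∀ p, p ∈ X0 ∨ p ∈ X1 ∨ p ∈ X2 := by
    intro p
    have : p ∈ X0 ∪ X1 ∪ X2 := by rw [hu]; trivial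
    rcases this with (h | h) | h
    · exact Or.inl h
    · exact Or.inr (Or.inl h)
    · exact Or.inr (Or.inr h)
  have hxr : ψ x = 0 := by
    have hx0 : x ∈ X0 := hA (by simp only [mem_ofPred_eq, hx]; exact ha)
    rw [g0 x hx0, hx]
    exact hr2 0 ha
  have hN0 : N ∈ range φ := by rw [hr]; exact ⟨by linarith, le_rfl⟩
  obtain ⟨y, hy⟩ := hN0
  have hyr : ψ y = N + 2*(b-a) := by
    have hy2 : y ∈ X2 := hB (by simp only [mem_ofPred_eq, hy]; exact hbN)
    rw [g2 y hy2, hy, hr3 N hbN]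
  -- bounds of r
  have hr0 : ∀ s, 0 ≤ s → 0 ≤ r s := by
    intro s hs
    rcases le_total s a with h | h
    · rw [hr2 s h]; exact hs
    · exact ha.trans (hr7 s h)
  have hrN : ∀ s, s ≤ N → r s ≤ N := by
    intro s hs
    rcases le_total s b with h | h
    · exact (hr6 s h).trans hbN
    · rw [hr3 s h]; exact hs
  have hbd : ∀ p, 0 ≤ ψ p ∧ ψ p ≤ N + 2*(b-a) := by
    intro p
    have q1 := hr0 _ (hb p).1
    have q2 := hrN _ (hb p).2
    rcases hcov p with h | h | h
    · rw [g0 p h]; constructor <;> linarith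
    · rw [g1 p h]
      have := hr7 _ (hX1 p h).1.le
      have := hr6 _ (hX1 p h).2.le
      constructor <;> linarith
    · rw [g2 p h]; constructor <;> linarith
  refine ⟨ψ, hψc, range_eq_Icc ψ hψc x y _ hxr hyr hbd, hxr, fun p => ?_⟩
  have hfin : min (ψ p) (max (2*b - ψ p) (ψ p - 2*(b-a))) = r (φ p) := by
    rcases hcov p with h | h | h
    · rw [g0 p h]
      have := hr6 _ (hX0 p h).le
      rw [max_eq_left (by linarith), min_eq_left (by linarith)]
    · rw [g1 p h]
      have := hr7 _ (hX1 p h).1.le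
      have := hr6 _ (hX1 p h).2.le
      rw [max_eq_left (by linarith), min_eq_right (by linarith)]
      ring
    · rw [g2 p h]
      have := hr7 _ (hX2 p h).le
      rw [max_eq_right (by linarith), min_eq_right (by linarith)]
      ring
  simp only [hfin]
  exact lt_of_le_of_lt (hr1 _) hηε

theorem lift_foldE [PreconnectedSpace X] (hKM : KM X) (x : X) (a N : ℝ) (ha : 0 ≤ a) (hab : a < N) :
    Lift x (2*N-a) N (fun t => min t (2*N - t)) := by
  intro φ hφ hr hx ε hε
  obtain ⟨r, η, hrc, hη, hη2, hηε, hr1, hr2, hr3, hr4, hr5, hr6, hr7⟩ := clamp_exists a N hab ε hε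
  have hb : ∀ p, φ p ∈ Icc 0 N := fun p => by rw [← hr]; exact mem_range_self p
  obtain ⟨X0, X1, X2, h0, h1, h2, hu, hA, hB, hd, h01, h12⟩ := hKM {p | φ p ≤ a} {p | N ≤ φ p}
    {p | φ p < a + η} {p | N - η < φ p} (isClosed_le hφ continuous_const)
    (isClosed_le continuous_const hφ) (by
      rw [disjoint_left]; intro p h1 h2; simp only [mem_ofPred_eq] at h1 h2; linarith)
    (isOpen_lt hφ continuous_const) (isOpen_lt continuous_const hφ)
    (by intro p h1; simp only [mem_ofPred_eq] at h1 ⊢; linarith)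
    (by intro p h1; simp only [mem_ofPred_eq] at h1 ⊢; linarith)
  have hX0 : ∀ p ∈ X0, φ p < N := by
    intro p hp; by_contra hc; push Not at hc
    exact disjoint_left.mp hd hp (hB hc)
  have hX2 : ∀ p ∈ X2, a < φ p := by
    intro p hp; by_contra hc; push Not at hc
    exact disjoint_left.mp hd (hA hc) hp
  have hX1 : ∀ p ∈ X1, a < φ p := by
    intro p hp
    by_contra hc; push Not at hc
    have := h01 ⟨hA hc, hp⟩
    simp only [mem_ofPred_eq] at this
    linarith
  obtain ⟨ψ, hψc, g0, g1, g2⟩ := glue3 h0 h1 h2 hu hd (fun p => r (φ p)) (fun p => 2*N - r (φ p))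
    (fun p => 2*N - r (φ p)) (hrc.comp hφ) (continuous_const.sub (hrc.comp hφ))
    (continuous_const.sub (hrc.comp hφ)) (by
      intro p hp
      have e1 := h01 hp
      simp only [mem_ofPred_eq] at e1
      have : r (φ p) = N := hr5 _ (hX0 p hp.1).le e1.le
      simp only [this]; ring) (by
      intro p hp
      rfl)
  have hcov : ∀ p, p ∈ X0 ∨ p ∈ X1 ∨ p ∈ X2 := by
    intro p
    have : p ∈ X0 ∪ X1 ∪ X2 := by rw [hu]; trivial
    rcases this with (h | h) | h
    · exact Or.inl h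
    · exact Or.inr (Or.inl h)
    · exact Or.inr (Or.inr h)
  have hxr : ψ x = 0 := by
    have hx0 : x ∈ X0 := hA (by simp only [mem_ofPred_eq, hx]; exact ha)
    rw [g0 x hx0, hx]
    exact hr2 0 ha
  have hN0 : N ∈ range φ := by rw [hr]; exact ⟨by linarith, le_rfl⟩
  obtain ⟨y, hy⟩ := hN0
  have hy2 : y ∈ X2 := hB (by simp only [mem_ofPred_eq, hy]; exact le_rfl)
  -- X1 ∩ X2 is nonempty
  have hne : (X1 ∩ X2).Nonempty := by
    have hcl : IsClosed (X0 ∪ X1) := h0.union h1
    have := isPreconnected_closed_iff.mp (isPreconnected_univ (α := X)) (X0 ∪ X1) X2 hcl h2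
      (by rw [hu]) ⟨x, trivial, Or.inl (hA (by simp only [mem_ofPred_eq, hx]; exact ha))⟩
      ⟨y, trivial, hy2⟩
    obtain ⟨z, -, hz1, hz2⟩ := this
    rcases hz1 with hz1 | hz1
    · exact absurd hz2 (disjoint_left.mp hd hz1)
    · exact ⟨z, hz1, hz2⟩
  obtain ⟨z, hz1, hz2⟩ := hne
  have hzr : ψ z = 2*N - a := by
    rw [g1 z hz1]
    have e1 := h12 ⟨hz1, hz2⟩
    simp only [mem_ofPred_eq] at e1
    have : r (φ z) = a := hr4 _ (hX2 z hz2).le e1.le
    simp only [this]
  have hr0 : ∀ s, 0 ≤ s → 0 ≤ r s := by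
    intro s hs
    rcases le_total s a with h | h
    · rw [hr2 s h]; exact hs
    · exact ha.trans (hr7 s h)
  have hbd : ∀ p, 0 ≤ ψ p ∧ ψ p ≤ 2*N-a := by
    intro p
    have q1 := hr0 _ (hb p).1
    have q2 := hr6 _ (hb p).2
    rcases hcov p with h | h | h
    · rw [g0 p h]; constructor <;> linarith
    · rw [g1 p h]
      have := hr7 _ (hX1 p h).le
      constructor <;> linarith
    · rw [g2 p h]
      have := hr7 _ (hX2 p h).le
      constructor <;> linarith
  refine ⟨ψ, hψc, range_eq_Icc ψ hψc x z _ hxr hzr hbd, hxr, fun p => ?_⟩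
  have hfin : min (ψ p) (2*N - ψ p) = r (φ p) := by
    have q2 := hr6 _ (hb p).2
    rcases hcov p with h | h | h
    · rw [g0 p h, min_eq_left (by linarith)]
    · rw [g1 p h, min_eq_right (by linarith)]
      ring
    · rw [g2 p h, min_eq_right (by linarith)]
      ring
  simp only [hfin]
  exact lt_of_le_of_lt (hr1 _) hηε

theorem lift_walk [PreconnectedSpace X] (hKM : KM X) (x : X) (N : ℕ) : ∀ (m : ℕ) (w : ℕ → ℤ)
    (h0 : w 0 = 0) (hpos : ∀ i ≤ m, 0 ≤ w i ∧ w i ≤ N)
    (hstep : ∀ i < m, w (i+1) = w i + 1 ∨ w (i+1) = w i - 1) (hN : ∃ i ≤ m, w i = N),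
    Lift x m N (PL w m) := by
  intro m
  induction m using Nat.strong_induction_on with
  | _ m ih =>
    intro w h0 hpos hstep hN
    rcases walk_cases w m N h0 hpos hstep hN with ⟨hmN, hw⟩ | ⟨b, l, hl, hlb, hblm, hs1, hs2⟩ |
      ⟨b, l, hl, hlb, hblm, hs1⟩
    · -- identity
      subst hmN
      have hid : ∀ t ∈ Icc (0:ℝ) m, PL w m t = t := by
        intro t ht
        rcases Nat.eq_zero_or_pos m with hm | hm
        · subst hm
          simp only [Nat.cast_zero, Icc_self, mem_singleton_iff] at ht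
          subst ht
          simp [PL, h0]
        · obtain ⟨j, hj, s, s0, s1, rfl⟩ := exists_floor m hm t ht.1 ht.2
          rw [PL_eval w m j hj s s0 s1, hw j hj.le, hw (j+1) hj]
          push_cast; ring
      intro φ hφ hr hx ε hε
      refine ⟨φ, hφ, hr, hx, fun p => ?_⟩
      rw [hid (φ p) (by rw [← hr]; exact mem_range_self p)]
      simpa using hε
    · -- N-fold
      set w' : ℕ → ℤ := fun i => if i ≤ b then w i else w (i + 2*l) with hw'
      have hw1 : ∀ i ≤ b, w' i = w i := fun i hi => by simp [hw', hi]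
      have hw2 : ∀ i, b - l ≤ i → w' i = w (i + 2*l) := by
        intro i hi
        by_cases hib : i ≤ b
        · rw [hw1 i hib]
          have e1 := hs1 (b - i) (by omega)
          have e2 := hs2 (l - (b - i)) (by omega)
          rw [show b - (b - i) = i by omega] at e1
          rw [show b + l + (l - (b-i)) = i + 2*l by omega, show b + l - (l - (b-i)) = b + (b-i) by omega] at e2
          rw [e2, e1]
        · simp [hw', hib]
      have hmm : m - 2*l < m := by omega
      have hIH := ih (m - 2*l) hmm w' (by rw [hw1 0 (by omega)]; exact h0) (by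
        intro i hi
        by_cases hib : i ≤ b
        · rw [hw1 i hib]; exact hpos i (by omega)
        · rw [hw2 i (by omega)]; exact hpos _ (by omega)) (by
        intro i hi
        by_cases hib : i < b
        · rw [hw1 i hib.le, hw1 (i+1) hib]; exact hstep i (by omega)
        · rw [hw2 i (by omega), hw2 (i+1) (by omega), show i + 1 + 2*l = i + 2*l + 1 by ring]
          exact hstep _ (by omega)) (by
        obtain ⟨i, him, hi⟩ := hN
        by_cases hib : i ≤ b
        · exact ⟨i, by omega, by rw [hw1 i hib]; exact hi⟩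
        · by_cases hibl : i < b + l
          · refine ⟨b - (i - b), by omega, ?_⟩
            rw [hw1 _ (by omega), ← hs1 (i-b) (by omega), show b + (i-b) = i by omega]
            exact hi
          · refine ⟨i - 2*l, by omega, ?_⟩
            rw [hw2 _ (by omega), show i - 2*l + 2*l = i by omega]
            exact hi)
      have hcastm : ((m - 2*l : ℕ) : ℝ) = (m:ℝ) - 2*l := by
        rw [Nat.cast_sub (by omega)]; push_cast; ring
      have hF := lift_foldN hKM x ((b:ℝ)-l) b ((m - 2*l : ℕ) : ℝ)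
        (by have : (l:ℝ) ≤ b := by exact_mod_cast hlb
            linarith) (by have : (0:ℝ) < l := by exact_mod_cast hl
                          linarith)
        (by exact_mod_cast (show b ≤ m - 2*l by omega))
      rw [show ((m - 2*l : ℕ) : ℝ) + 2*((b:ℝ) - ((b:ℝ) - l)) = m by rw [hcastm]; ring] at hF
      have hcomp := hIH.comp hF (PL_continuous _ _)
      refine hcomp.congr ?_
      intro t ht
      obtain ⟨j, hj, s, s0, s1, rfl⟩ := exists_floor m (by omega) t ht.1 ht.2
      have hlr : (0:ℝ) < l := by exact_mod_cast hl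
      rw [PL_eval w m j hj s s0 s1]
      rcases lt_or_ge j b with hjb | hjb
      · have hjb' : (j:ℝ) + 1 ≤ b := by exact_mod_cast hjb
        have : min ((j:ℝ) + s) (max (2*b - ((j:ℝ)+s)) ((j:ℝ)+s - 2*(b - ((b:ℝ) - l)))) = (j:ℝ) + s := by
          apply min_eq_left
          apply le_max_of_le_left
          linarith
        simp only [this]
        rw [PL_eval w' _ j (by omega) s s0 s1, hw1 j hjb.le, hw1 (j+1) hjb]
      rcases lt_or_ge j (b+l) with hjl | hjl
      · have hjb' : (b:ℝ) ≤ j := by exact_mod_cast hjb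
        have hjl' : (j:ℝ) + 1 ≤ b + l := by exact_mod_cast hjl
        have e : min ((j:ℝ) + s) (max (2*b - ((j:ℝ)+s)) ((j:ℝ)+s - 2*(b - ((b:ℝ) - l)))) =
            ((2*b - j - 1 : ℕ) : ℝ) + (1 - s) := by
          rw [Nat.cast_sub (by omega), Nat.cast_sub (by omega)]
          push_cast
          rw [max_eq_left (by linarith), min_eq_right (by linarith)]
          ring
        simp only [e]
        rw [PL_eval w' _ _ (by omega) (1-s) (by linarith) (by linarith), hw1 _ (by omega), hw1 _ (by omega)]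
        have f1 := hs1 (j - b) (by omega)
        have f2 := hs1 (j + 1 - b) (by omega)
        rw [show b + (j - b) = j by omega, show b - (j-b) = 2*b - j - 1 + 1 by omega] at f1
        rw [show b + (j + 1 - b) = j + 1 by omega, show b - (j+1-b) = 2*b - j - 1 by omega] at f2
        rw [f1, f2]
        ring
      · have hjl' : (b:ℝ) + l ≤ j := by exact_mod_cast hjl
        have e : min ((j:ℝ) + s) (max (2*b - ((j:ℝ)+s)) ((j:ℝ)+s - 2*(b - ((b:ℝ) - l)))) =
            ((j - 2*l : ℕ) : ℝ) + s := by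
          rw [Nat.cast_sub (by omega)]
          push_cast
          rw [max_eq_right (by linarith), min_eq_right (by linarith)]
          ring
        simp only [e]
        rw [PL_eval w' _ _ (by omega) s s0 s1, hw2 _ (by omega), hw2 _ (by omega),
          show j - 2*l + 2*l = j by omega, show j - 2*l + 1 + 2*l = j + 1 by omega]
    · -- end fold
      have hbm : b < m := by omega
      have hIH := ih b hbm w h0 (fun i hi => hpos i (by omega)) (fun i hi => hstep i (by omega)) (by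
        obtain ⟨i, him, hi⟩ := hN
        by_cases hib : i ≤ b
        · exact ⟨i, hib, hi⟩
        · refine ⟨b - (i - b), by omega, ?_⟩
          rw [← hs1 (i-b) (by omega), show b + (i-b) = i by omega]
          exact hi)
      have hF := lift_foldE hKM x ((b:ℝ)-l) b
        (by have : (l:ℝ) ≤ b := by exact_mod_cast hlb
            linarith) (by have : (0:ℝ) < l := by exact_mod_cast hl
                          linarith)
      rw [show 2*(b:ℝ) - ((b:ℝ) - l) = m by rw [← hblm]; push_cast; ring] at hF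
      have hcomp := hIH.comp hF (PL_continuous _ _)
      refine hcomp.congr ?_
      intro t ht
      obtain ⟨j, hj, s, s0, s1, rfl⟩ := exists_floor m (by omega) t ht.1 ht.2
      rw [PL_eval w m j hj s s0 s1]
      rcases lt_or_ge j b with hjb | hjb
      · have hjb' : (j:ℝ) + 1 ≤ b := by exact_mod_cast hjb
        have : min ((j:ℝ) + s) (2*b - ((j:ℝ)+s)) = (j:ℝ) + s := by
          apply min_eq_left
          linarith
        simp only [this]
        rw [PL_eval w _ j (by omega) s s0 s1]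
      · have hjb' : (b:ℝ) ≤ j := by exact_mod_cast hjb
        have e : min ((j:ℝ) + s) (2*b - ((j:ℝ)+s)) = ((2*b - j - 1 : ℕ) : ℝ) + (1 - s) := by
          rw [Nat.cast_sub (by omega), Nat.cast_sub (by omega)]
          push_cast
          rw [min_eq_right (by linarith)]
          ring
        simp only [e]
        rw [PL_eval w _ _ (by omega) (1-s) (by linarith) (by linarith)]
        have f1 := hs1 (j - b) (by omega)
        have f2 := hs1 (j + 1 - b) (by omega)
        rw [show b + (j - b) = j by omega, show b - (j-b) = 2*b - j - 1 + 1 by omega] at f1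
        rw [show b + (j + 1 - b) = j + 1 by omega, show b - (j+1-b) = 2*b - j - 1 by omega] at f2
        rw [f1, f2]
        ring



theorem exists_walk (k : ℝ → ℝ) (hk : ContinuousOn k (Icc 0 1)) (hk1 : k '' Icc 0 1 = Icc 0 1)
    (hk0 : k 0 = 0) (ε : ℝ) (hε : 0 < ε) :
    ∃ (N m : ℕ) (w : ℕ → ℤ), 0 < N ∧ 0 < m ∧ w 0 = 0 ∧ (∀ i ≤ m, 0 ≤ w i ∧ w i ≤ N) ∧
      (∀ i < m, w (i+1) = w i + 1 ∨ w (i+1) = w i - 1) ∧ (∃ i ≤ m, w i = N) ∧
      (∀ t ∈ Icc (0:ℝ) 1, |k t - PL w m (m * t) / N| < ε) := by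
  have hkb : ∀ t ∈ Icc (0:ℝ) 1, 0 ≤ k t ∧ k t ≤ 1 := by
    intro t ht
    have : k t ∈ Icc (0:ℝ) 1 := by rw [← hk1]; exact mem_image_of_mem k ht
    exact this
  obtain ⟨N0', hN0'⟩ := exists_nat_gt (10/ε)
  obtain ⟨N0, hN0, hN0ε⟩ : ∃ N0 : ℕ, 1 ≤ N0 ∧ 10/ε < N0 :=
    ⟨N0' + 1, by omega, hN0'.trans (by push_cast; linarith)⟩
  have hN0r : (1:ℝ) ≤ N0 := by exact_mod_cast hN0
  have huc : UniformContinuousOn k (Icc 0 1) := isCompact_Icc.uniformContinuousOn_of_continuous hk
  rw [Metric.uniformContinuousOn_iff] at huc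
  obtain ⟨δ, hδ, hu⟩ := huc (1/((N0:ℝ)+1)) (by positivity)
  obtain ⟨M', hM'⟩ := exists_nat_gt (1/δ)
  obtain ⟨M, hM, hMδ⟩ : ∃ M : ℕ, 1 ≤ M ∧ 1/(M:ℝ) < δ := by
    refine ⟨M' + 1, by omega, ?_⟩
    rw [div_lt_iff₀ (by positivity)]
    rw [div_lt_iff₀ hδ] at hM'
    push_cast; nlinarith
  have hMr : (1:ℝ) ≤ M := by exact_mod_cast hM
  have hgrid : ∀ i : ℕ, i ≤ M → ((i:ℝ)/M) ∈ Icc (0:ℝ) 1 := by
    intro i hi
    have : (i:ℝ) ≤ M := by exact_mod_cast hi
    exact ⟨by positivity, (div_le_one (by positivity)).mpr this⟩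
  have hu' : ∀ s ∈ Icc (0:ℝ) 1, ∀ t ∈ Icc (0:ℝ) 1, |s - t| ≤ 1/M → |k s - k t| < 1/((N0:ℝ)+1) := by
    intro s hs t ht hst
    have := hu s hs t ht (by rw [Real.dist_eq]; linarith)
    rwa [Real.dist_eq] at this
  obtain ⟨v, hv⟩ : ∃ v : ℕ → ℤ, ∀ i, v i = min (N0:ℤ) ⌊((N0:ℝ)+1) * k ((i:ℝ)/M)⌋ := ⟨_, fun _ => rfl⟩
  have v1 : ∀ i ≤ M, 0 ≤ v i ∧ v i ≤ N0 := by
    intro i hi
    rw [hv]
    refine ⟨le_min (by positivity) ?_, min_le_left _ _⟩
    apply Int.floor_nonneg.mpr
    have := (hkb _ (hgrid i hi)).1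
    positivity
  have v2 : ∀ i ≤ M, |(v i : ℝ) - N0 * k ((i:ℝ)/M)| ≤ 1 := by
    intro i hi
    have a1 := hkb _ (hgrid i hi)
    have a2 := Int.floor_le (((N0:ℝ)+1) * k ((i:ℝ)/M))
    have a3 := Int.lt_floor_add_one (((N0:ℝ)+1) * k ((i:ℝ)/M))
    rw [hv, abs_le]
    push_cast
    rcases min_cases (N0:ℝ) ((⌊((N0:ℝ)+1) * k ((i:ℝ)/M)⌋ : ℤ) : ℝ) with ⟨h, h'⟩ | ⟨h, h'⟩
    · rw [h]; constructor <;> nlinarith
    · rw [h]; constructor <;> nlinarith
  have v3 : ∀ i < M, v (i+1) = v i + 1 ∨ v (i+1) = v i ∨ v (i+1) = v i - 1 := by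
    intro i hi
    have b := hu' _ (hgrid (i+1) hi) _ (hgrid i hi.le) (by
      rw [show ((i+1:ℕ):ℝ)/M - (i:ℝ)/M = 1/M by push_cast; ring, abs_of_nonneg (by positivity)])
    have b' : |((N0:ℝ)+1) * k (((i+1:ℕ):ℝ)/M) - ((N0:ℝ)+1) * k ((i:ℝ)/M)| < 1 := by
      rw [← mul_sub, abs_mul, abs_of_pos (by positivity : (0:ℝ) < N0 + 1)]
      rw [lt_div_iff₀ (by positivity)] at b
      linarith
    rw [abs_lt] at b'
    have a2 := Int.floor_le (((N0:ℝ)+1) * k ((i:ℝ)/M))
    have a3 := Int.lt_floor_add_one (((N0:ℝ)+1) * k ((i:ℝ)/M))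
    have c2 := Int.floor_le (((N0:ℝ)+1) * k (((i+1:ℕ):ℝ)/M))
    have c3 := Int.lt_floor_add_one (((N0:ℝ)+1) * k (((i+1:ℕ):ℝ)/M))
    rw [hv, hv]
    set A := ⌊((N0:ℝ)+1) * k ((i:ℝ)/M)⌋ with hA
    set B := ⌊((N0:ℝ)+1) * k (((i+1:ℕ):ℝ)/M)⌋ with hB
    have e1 : B < A + 2 := by
      have : (B:ℝ) < (A:ℝ) + 2 := by linarith
      exact_mod_cast this
    have e2 : A < B + 2 := by
      have : (A:ℝ) < (B:ℝ) + 2 := by linarith
      exact_mod_cast this
    omega
  have v4 : v 0 = 0 := by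
    rw [hv]; simp [hk0]
  have v5 : ∃ i ≤ M, v i = N0 := by
    have : (1:ℝ) ∈ k '' Icc 0 1 := by rw [hk1]; exact ⟨zero_le_one, le_rfl⟩
    obtain ⟨t, ht, hkt⟩ := this
    have hMt : 0 ≤ (M:ℝ) * t := by have := ht.1; positivity
    have f1 := Nat.floor_le hMt
    have f2 := Nat.lt_floor_add_one ((M:ℝ) * t)
    have hiM : ⌊(M:ℝ) * t⌋₊ ≤ M := by
      have : ((⌊(M:ℝ) * t⌋₊ : ℕ) : ℝ) ≤ M := by nlinarith [ht.2]
      exact_mod_cast this
    refine ⟨⌊(M:ℝ) * t⌋₊, hiM, ?_⟩
    have b := hu' _ (hgrid _ hiM) t ht (by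
      rw [abs_le]
      have hM0 : (0:ℝ) < M := by positivity
      constructor
      · rw [show -(1/(M:ℝ)) = (-1)/M by ring, le_sub_iff_add_le, show (-1)/(M:ℝ) + t = (M*t - 1)/M by field_simp; ring]
        apply div_le_div_of_nonneg_right _ hM0.le
        linarith
      · rw [sub_le_iff_le_add, show 1/(M:ℝ) + t = (M*t + 1)/M by field_simp; ring]
        apply div_le_div_of_nonneg_right _ hM0.le
        linarith)
    rw [hkt, abs_lt] at b
    have hlow : (N0:ℝ) ≤ ((N0:ℝ)+1) * k ((⌊(M:ℝ) * t⌋₊:ℝ)/M) := by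
      have : ((N0:ℝ)+1) * (1/((N0:ℝ)+1)) = 1 := by field_simp
      nlinarith [b.1]
    rw [hv]
    apply min_eq_left
    rw [Int.le_floor]
    exact_mod_cast hlow
  obtain ⟨w, hw⟩ : ∃ w : ℕ → ℤ, ∀ i, w i = if i % 2 = 0 then 2 * v (i/2) else
      if v (i/2) < v (i/2+1) ∨ (v (i/2) = v (i/2+1) ∧ v (i/2) < N0) then 2 * v (i/2) + 1 else
        2 * v (i/2) - 1 := ⟨_, fun _ => rfl⟩
  have w1 : ∀ j, w (2*j) = 2 * v j := by
    intro j; rw [hw]
    rw [if_pos (by omega), show 2*j/2 = j by omega]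
  have w2 : ∀ j, w (2*j+1) = if v j < v (j+1) ∨ (v j = v (j+1) ∧ v j < N0) then 2 * v j + 1 else
      2 * v j - 1 := by
    intro j; rw [hw, if_neg (by omega), show (2*j+1)/2 = j by omega]
  have hcase : ∀ i, (∃ j, i = 2*j) ∨ (∃ j, i = 2*j+1) := fun i => by
    rcases Nat.even_or_odd' i with ⟨j, h | h⟩
    · exact Or.inl ⟨j, h⟩
    · exact Or.inr ⟨j, h⟩
  have wclose : ∀ i, |((w i : ℤ) : ℝ) - 2 * v (i/2)| ≤ 1 := by
    intro i
    rcases hcase i with ⟨j, rfl⟩ | ⟨j, rfl⟩
    · rw [w1, show 2*j/2 = j by omega]; push_cast; simp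
    · rw [w2, show (2*j+1)/2 = j by omega]
      split_ifs <;> push_cast <;> simp
  have wstep : ∀ i < 2*M, w (i+1) = w i + 1 ∨ w (i+1) = w i - 1 := by
    intro i hi
    rcases hcase i with ⟨j, rfl⟩ | ⟨j, rfl⟩
    · rw [w1, w2]
      split_ifs
      · left; rfl
      · right; rfl
    · rw [show 2*j+1+1 = 2*(j+1) by ring, w1, w2]
      have h3 := v3 j (by omega)
      have h1 := v1 j (by omega)
      have h1' := v1 (j+1) (by omega)
      split_ifs with h
      · omega
      · omega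
  refine ⟨2*N0, 2*M, w, by omega, by omega, ?_, ?_, wstep, ?_, ?_⟩
  · have := w1 0
    simpa [v4] using this
  · intro i hi
    rcases hcase i with ⟨j, rfl⟩ | ⟨j, rfl⟩
    · rw [w1]
      have := v1 j (by omega)
      push_cast; omega
    · rw [w2]
      have h3 := v3 j (by omega)
      have h1 := v1 j (by omega)
      have h1' := v1 (j+1) (by omega)
      push_cast
      split_ifs with h
      · omega
      · omega
  · obtain ⟨i, hi, hvi⟩ := v5
    exact ⟨2*i, by omega, by rw [w1, hvi]; push_cast; ring⟩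
  · intro t ht
    have hm : (0:ℝ) < ((2*M:ℕ):ℝ) := by positivity
    obtain ⟨j, hj, s, s0, s1, hjs⟩ := exists_floor (2*M) (by omega) (((2*M:ℕ):ℝ) * t)
      (by have := ht.1; positivity) (by nlinarith [ht.2])
    rw [hjs, PL_eval w _ j hj s s0 s1]
    have g1 : |(1 - s) * (w j : ℝ) + s * w (j+1) - w j| ≤ 1 := by
      rcases wstep j hj with h | h
      · rw [h]; push_cast; rw [abs_le]; constructor <;> nlinarith
      · rw [h]; push_cast; rw [abs_le]; constructor <;> nlinarith
    have g2 := wclose j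
    have g3 := v2 (j/2) (by omega)
    have hj2 : (2 * ((j/2 : ℕ):ℝ)) ≤ j ∧ (j:ℝ) ≤ 2 * ((j/2 : ℕ):ℝ) + 1 := by
      constructor
      · exact_mod_cast (show 2 * (j/2) ≤ j by omega)
      · exact_mod_cast (show j ≤ 2 * (j/2) + 1 by omega)
    have g4 := hu' _ (hgrid (j/2) (by omega)) t ht (by
      have hM0 : (0:ℝ) < M := by positivity
      push_cast at hjs
      rw [abs_le]
      constructor
      · rw [show -(1/(M:ℝ)) = (-1)/M by ring, le_sub_iff_add_le, show (-1)/(M:ℝ) + t = (M*t - 1)/M by field_simp; ring]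
        apply div_le_div_of_nonneg_right _ hM0.le
        linarith [hj2.2]
      · rw [sub_le_iff_le_add, show 1/(M:ℝ) + t = (M*t + 1)/M by field_simp; ring]
        apply div_le_div_of_nonneg_right _ hM0.le
        linarith [hj2.1])
    -- combine
    have hN0p : (0:ℝ) < N0 := by positivity
    set K := k (((j/2:ℕ):ℝ)/M) with hK
    set Q := (1 - s) * (w j : ℝ) + s * w (j+1) with hQ
    have hQK : |Q - 2 * N0 * K| ≤ 4 := by
      calc |Q - 2 * N0 * K| = |(Q - w j) + (w j - 2 * v (j/2)) + 2 * (v (j/2) - N0 * K)| := by ring_nf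
        _ ≤ |(Q - w j) + (w j - 2 * v (j/2))| + |2 * ((v (j/2):ℝ) - N0 * K)| := abs_add_le _ _
        _ ≤ |Q - w j| + |(w j:ℝ) - 2 * v (j/2)| + |2 * ((v (j/2):ℝ) - N0 * K)| := by
            gcongr; exact abs_add_le _ _
        _ ≤ 1 + 1 + 2 := by
            rw [abs_mul, abs_two]
            linarith
        _ = 4 := by norm_num
    have hQ2 : |K - Q / ((2*N0:ℕ):ℝ)| ≤ 2 / N0 := by
      have : K - Q / ((2*N0:ℕ):ℝ) = -((Q - 2*N0*K) / (2*N0)) := by
        push_cast; field_simp; ring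
      rw [this, abs_neg, abs_div, abs_of_pos (by positivity : (0:ℝ) < 2 * N0), div_le_div_iff₀ (by positivity) (by positivity)]
      nlinarith
    have hlast : (1:ℝ)/((N0:ℝ)+1) ≤ 1/N0 := one_div_le_one_div_of_le (by positivity) (by linarith)
    have h10 : 3 / (N0:ℝ) < ε := by
      rw [div_lt_iff₀ hε] at hN0ε
      rw [div_lt_iff₀ (by positivity)]
      nlinarith
    calc |k t - Q / ((2*N0:ℕ):ℝ)| = |-(K - k t) + (K - Q / ((2*N0:ℕ):ℝ))| := by ring_nf
      _ ≤ |-(K - k t)| + |K - Q / ((2*N0:ℕ):ℝ)| := abs_add_le _ _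
      _ < 1 / N0 + 2 / N0 := by rw [abs_neg]; linarith
      _ = 3 / N0 := by ring
      _ < ε := h10

theorem lift_cont (x : X) (k : ℝ → ℝ)
    (hk : ContinuousOn k (Icc 0 1)) (hk1 : k '' Icc 0 1 = Icc 0 1) (hk0 : k 0 = 0)
    (hw : ∀ (N m : ℕ) (w : ℕ → ℤ), w 0 = 0 → (∀ i ≤ m, 0 ≤ w i ∧ w i ≤ N) →
      (∀ i < m, w (i+1) = w i + 1 ∨ w (i+1) = w i - 1) → (∃ i ≤ m, w i = N) → Lift x m N (PL w m)) :
    Lift x 1 1 k := by
  intro φ hφ hr hx ε hε
  obtain ⟨N, m, w, hN, hm, h0, h1, h2, h3, h4⟩ := exists_walk k hk hk1 hk0 (ε/2) (by positivity)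
  have hNr : (0:ℝ) < N := by exact_mod_cast hN
  have hmr : (0:ℝ) < m := by exact_mod_cast hm
  obtain ⟨ψ2, q1, q2, q3, q4⟩ := hw N m w h0 h1 h2 h3 (fun p => N * φ p) (continuous_const.mul hφ) (by
    apply Subset.antisymm
    · rintro _ ⟨p, rfl⟩
      have : φ p ∈ Icc (0:ℝ) 1 := by rw [← hr]; exact mem_range_self p
      exact ⟨by have := this.1; positivity, by nlinarith [this.2]⟩
    · intro y hy
      have : y / N ∈ range φ := by
        rw [hr]; exact ⟨by have := hy.1; positivity, (div_le_one hNr).mpr hy.2⟩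
      obtain ⟨p, hp⟩ := this
      exact ⟨p, by simp only [hp]; field_simp⟩) (by simp [hx]) (ε/2 * N) (by positivity)
  refine ⟨fun p => ψ2 p / m, q1.div_const _, ?_, by simp [q3], ?_⟩
  · apply Subset.antisymm
    · rintro _ ⟨p, rfl⟩
      have : ψ2 p ∈ Icc (0:ℝ) m := by rw [← q2]; exact mem_range_self p
      exact ⟨by have := this.1; positivity, (div_le_one hmr).mpr this.2⟩
    · intro y hy
      have : m * y ∈ range ψ2 := by
        rw [q2]; exact ⟨by have := hy.1; positivity, by nlinarith [hy.2]⟩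
      obtain ⟨p, hp⟩ := this
      exact ⟨p, by simp only [hp]; field_simp⟩
  · intro p
    have a1 := q4 p
    have hψ : ψ2 p ∈ Icc (0:ℝ) m := by rw [← q2]; exact mem_range_self p
    have a2 := h4 (ψ2 p / m) ⟨by have := hψ.1; positivity, (div_le_one hmr).mpr hψ.2⟩
    rw [show (m:ℝ) * (ψ2 p / m) = ψ2 p by field_simp] at a2
    have a3 : |PL w m (ψ2 p) / N - φ p| < ε/2 := by
      rw [show PL w m (ψ2 p) / N - φ p = (PL w m (ψ2 p) - N * φ p) / N by field_simp, abs_div,
        abs_of_pos hNr, div_lt_iff₀ hNr]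
      exact a1
    calc |k (ψ2 p / m) - φ p| = |(k (ψ2 p / m) - PL w m (ψ2 p) / N) + (PL w m (ψ2 p) / N - φ p)| := by ring_nf
      _ ≤ |k (ψ2 p / m) - PL w m (ψ2 p) / N| + |PL w m (ψ2 p) / N - φ p| := abs_add_le _ _
      _ < ε := by linarith


/-- block (A): lifting through an arbitrary continuous surjection `k` of `[0,1]` with `k 0 = 0`. -/
theorem liftA [PreconnectedSpace X] (hKM : KM X) (x : X) :
    ∀ φ : X → ℝ, Continuous φ → range φ = Icc 0 1 → φ x = 0 → ∀ k : ℝ → ℝ,
      ContinuousOn k (Icc 0 1) → k '' Icc 0 1 = Icc 0 1 → k 0 = 0 → ∀ ε : ℝ, 0 < ε →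
      ∃ ψ : X → ℝ, Continuous ψ ∧ range ψ = Icc 0 1 ∧ ψ x = 0 ∧ ∀ p, |k (ψ p) - φ p| < ε := by
  intro φ hφ hr hx k hk hk1 hk0 ε hε
  exact lift_cont x k hk hk1 hk0 (fun N m w h0 h1 h2 h3 => lift_walk hKM x N m w h0 h1 h2 h3)
    φ hφ hr hx ε hε

end Pool.Agent.Helper737.FoldLift
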